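import Pool.Agent.H29.EX.Defs

/-!
# Two dilations, test polynomials over primes of the larger dilation: exact targets
-/

set_option autoImplicit false

open Complex MeasureTheory Set Filter Topology

namespace Pool.Agent.H29.EX

open Pool.Agent.H25.DL Pool.Agent.H25.DP Pool.Agent.H23.GLH

/-! ### The bilinear form -/

/-- (KSR) the sum over `k` for two real parameters. -/
def T_KSR : Prop :=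
  ∀ d B η κ : ℝ, 1 < d → d < 5 / 2 → 1 ≤ κ → ∃ C T₀ : ℝ, 0 < C ∧ ∀ T : ℝ, T₀ ≤ T →
    ∀ H W y : ℝ, T ≤ H → T / 4 ≤ W → H + W ≤ 2 * T → |y| ≤ Real.log T →
    ∀ (K : ℕ) (P P' : ℝ), 1 ≤ K → 0 < P → P < P' → P' ≤ κ * P →
    ‖∑ k ∈ Finset.Ico K (2 * K),
      if (T / 4 ≤ Vv d B (k * P) ∧ Vv d B (k * P) ≤ 8 * T) ∧
          (T / 4 ≤ Vv d B (k * P') ∧ Vv d B (k * P') ≤ 8 * T) then
        IO d B η H W y (Real.log (k * P)) *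
          (starRingEnd ℂ) (IO d B η H W y (Real.log (k * P')))
      else 0‖ ≤
    C * T * min (Real.sqrt (T * ((P' - P) / P)) + K / Real.sqrt (T * ((P' - P) / P)))
      (Real.sqrt K * (T * ((P' - P) / P)) ^ (1 / 6 : ℝ) +
        K * (T * ((P' - P) / P)) ^ (-(1 / 6) : ℝ))

/-- (BLR) the bilinear form over one dyadic range of `k`. -/
def T_BLR : Prop :=
  ∀ (d B η r : ℝ) (J : ℕ), 1 < d → d < 5 / 2 → 1 < r → ∃ C T₀ : ℝ, 0 < C ∧ ∀ T : ℝ, T₀ ≤ T →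
    ∀ H W y : ℝ, T ≤ H → T / 4 ≤ W → H + W ≤ 2 * T → |y| ≤ Real.log T → ∀ (K L : ℕ)
    (α β : ℕ → ℂ) (A : ℝ), 1 ≤ K → 1 ≤ L → (∀ n, ‖α n‖ ≤ 1) → (∀ n, ‖β n‖ ≤ 1) → 0 ≤ A →
    (A = Real.sqrt T + K / Real.sqrt T ∨
      A = Real.sqrt K * T ^ (1 / 6 : ℝ) + K * T ^ (-(1 / 6) : ℝ)) →
    ‖∑ k ∈ Finset.Ico K (2 * K), ∑ l ∈ Finset.Ico L (J * L),
      α k * β l * IO d B η H W y (Real.log k + r * Real.log l)‖ ≤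
    C * ((K : ℝ) * L / T + K * Real.sqrt (L * T) + L * Real.sqrt (K * T * A))

/-- (XPS) the smoothed average of a product of two Dirichlet polynomials times `Y`. -/
def T_XPS : Prop :=
  ∀ (Y : ℂ → ℂ) (d B η t₀ C a : ℝ) (κ : ℂ),
    (∀ s : ℂ, t₀ ≤ s.im → DifferentiableAt ℂ Y s) → (∀ t : ℝ, t₀ ≤ t →
      ‖Y (1 / 2 + t * I) - κ * cexp ((d * t * Real.log t + B * t + η * Real.log t : ℝ) * I)‖ ≤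
        C / t) →
    ∃ C₁ T₀ : ℝ, 0 < C₁ ∧ ∀ T : ℝ, T₀ ≤ T → ∀ (S S' : Finset ℕ) (α β : ℕ → ℂ),
      ∀ H W y : ℝ, T ≤ H → 0 < W → H + W ≤ 2 * T → |y| ≤ Real.log T →
      ‖(∫ u in H..(H + W), (om ((u - H) / W) : ℂ) * ((∑ n ∈ S, α n * en n (u + y)) *
          (∑ l ∈ S', β l * en l (a * (u + y))) * Y (1 / 2 + (u + y : ℝ) * I))) -
        κ * ∑ n ∈ S, ∑ l ∈ S', α n * β l * IO d B η H W y (Real.log n + a * Real.log l)‖ ≤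
        C₁ * (W / T) * (∑ n ∈ S, ‖α n‖) * ∑ l ∈ S', ‖β l‖

/-- (BIR) the bilinear estimate. -/
def T_BIR : Prop :=
  ∀ (ι : Type) [Fintype ι] (f : ι → Fac) (Y : ℂ → ℂ) (d t₀ r ω₁ ω₂ D : ℝ), Phase Y d t₀ →
    0 < d → d < 5 / 2 → 1 < r → 3 * d < 2 * r + 1 → 6 * d < 3 * r + 4 →
    (∀ l, (f l).r = r ∨ (f l).r = 1) → 0 < ω₁ → ω₁ < ω₂ → 2 * ω₂ < 1 → 0 < D → D < 1 →
    ∃ c T₀ : ℝ, 0 < c ∧ ∀ T : ℝ, T₀ ≤ T → ∀ j ∈ mains f 1 D T,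
      ∀ (X : ℕ) (ρ : ℕ → ℂ) (y : ℝ), T ^ ω₁ ≤ X → (X : ℝ) ≤ T ^ ω₂ →
      (∀ p, ‖ρ p‖ ≤ (X : ℝ) ^ (-(1 / 2) : ℝ)) → |y| ≤ Real.log T →
      ‖AQ f Y j r X ρ (5 * T / 4) (T / 2) y‖ ≤ T ^ (1 - c)

/-! ### Bad heights -/

/-- (BER) the average over a small set. -/
def T_BER : Prop :=
  ∀ (ι : Type) [Fintype ι] (f : ι → Fac) (r D ω ρ₀ ε : ℝ), 1 < r →
    (∀ l, (f l).r = r ∨ (f l).r = 1) → 0 < D → D < 3 / 2 → 2 * D < r → 6 * D < 3 + 2 * r →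
    0 < ω → ω < 1 / 2 → 0 < ρ₀ → ρ₀ ≤ 1 → ρ₀ ≤ 3 - 2 * D → 0 < ε →
    ∃ c T₀ : ℝ, 0 < c ∧ ∀ T : ℝ, T₀ ≤ T → ∀ j ∈ mains f 1 D T, ∀ (X : ℕ) (σ : ℕ → ℂ) (y : ℝ),
      (X : ℝ) ≤ T ^ ω → (∀ p, ‖σ p‖ ≤ (X : ℝ) ^ (-(1 / 2) : ℝ)) → |y| ≤ Real.log T →
      ∀ E : Set ℝ, MeasurableSet E → E ⊆ Icc T (2 * T) → volume.real E ≤ T ^ (ρ₀ - ε) →
      ∫ u in E, ‖Pj f j (1 / 2 + (u + y : ℝ) * I)‖ * ‖TQ r X σ u‖ ≤ T ^ (1 - c)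

/-- (BXR) the same for the local averages. -/
def T_BXR : Prop :=
  ∀ (ι : Type) [Fintype ι] (f : ι → Fac) (Y : ℂ → ℂ) (d t₀ r D ω ρ₀ ε : ℝ), Phase Y d t₀ →
    1 < r → (∀ l, (f l).r = r ∨ (f l).r = 1) → 0 < D → D < 3 / 2 → 2 * D < r →
    6 * D < 3 + 2 * r → 0 < ω → ω < 1 / 2 → 0 < ρ₀ → ρ₀ ≤ 1 → ρ₀ ≤ 3 - 2 * D → 0 < ε →
    ∃ c : ℝ, 0 < c ∧ ∀ β : ℝ, 0 < β → ∃ T₀ : ℝ, ∀ T : ℝ, T₀ ≤ T → ∀ j ∈ mains f 1 D T,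
      ∀ (X : ℕ) (σ : ℕ → ℂ) (ξ : ℝ), (X : ℝ) ≤ T ^ ω →
      (∀ p, ‖σ p‖ ≤ (X : ℝ) ^ (-(1 / 2) : ℝ)) →
      ∀ E : Set ℝ, MeasurableSet E → E ⊆ Icc T (2 * T) → volume.real E ≤ T ^ (ρ₀ - ε) →
      (∫ u in E, ‖KX f Y β ξ (Real.log T) j u‖ * ‖TQ r X σ u‖ ≤ T ^ (1 - c)) ∧
      ∫ u in E, ‖LX f β ξ (Real.log T) j u‖ * ‖TQ r X σ u‖ ≤ T ^ (1 - c)

/-- (RDR) from local averages to smoothed averages. -/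
def T_RDR : Prop :=
  ∀ (ι : Type) [Fintype ι] (f : ι → Fac) (Y : ℂ → ℂ) (d t₀ β : ℝ), 0 < β → Phase Y d t₀ →
    ∃ T₀ : ℝ, ∀ T : ℝ, T₀ ≤ T → ∀ (j : ι → ℕ) (a : ℝ) (X : ℕ) (ρ : ℕ → ℂ) (ξ H W M : ℝ),
      T ≤ H → 0 < W → H + W ≤ 2 * T →
      (∀ y : ℝ, |y| ≤ Real.log T → ‖AQ f Y j a X ρ H W y‖ ≤ M) →
      ‖∫ u in H..(H + W), (om ((u - H) / W) : ℂ) * KX f Y β ξ (Real.log T) j u * TQ a X ρ u‖ ≤ M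

/-! ### The lower bound -/

/-- (DLX) expansion of the left side. -/
def T_DLX : Prop :=
  ∀ (ι : Type) [Fintype ι] (f : ι → Fac) (D β : ℝ), (∀ l, 1 ≤ (f l).r) → 0 < D → D ≤ 2 → 0 < β →
    ∃ T₀ : ℝ, ∀ T : ℝ, T₀ ≤ T → ∀ u ξ : ℝ,
      ‖(∑ j ∈ mains f 1 D T, LX f β ξ (Real.log T) j u) - ∑ z ∈ TU f D T,
        (starRingEnd ℂ) (co f z) * cexp ((u * lam f z : ℝ) * I) *
          (Real.exp (-(β ^ 2 * (lam f z - ξ) ^ 2 / 4)) : ℂ)‖ ≤ T ^ (-5 : ℝ)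

/-- (NF) near coincidences, bound from the spacing of fractions. -/
def T_NF : Prop :=
  ∀ r : ℝ, 1 < r → ∃ C : ℝ, 0 < C ∧ ∀ (X N M : ℕ) (δ : ℝ), 1 ≤ X → 1 ≤ N → 1 ≤ M → 0 < δ →
    δ ≤ 1 / 10 →
    ((NS r δ X N M).card : ℝ) ≤ C * (min (N : ℝ) (X * M) + δ * (N * X * M))

/-- (NB) near coincidences, power saving. -/
def T_NB : Prop :=
  ∀ r ω₁ ω₂ : ℝ, 1 < r → 0 < ω₁ → ω₁ < ω₂ → 2 * ω₂ < 1 → (r + 1) * ω₂ < 2 →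
    ∃ c ε₀ T₀ : ℝ, 0 < c ∧ 0 < ε₀ ∧ ∀ T : ℝ, T₀ ≤ T → ∀ X N M : ℕ, T ^ ω₁ ≤ X →
      (X : ℝ) ≤ T ^ ω₂ → 1 ≤ N → 1 ≤ M →
      ((NS r (T ^ (-1 + ε₀)) X N M).card : ℝ) ≤ T ^ (-c) * Real.sqrt (N * X * M)

/-- (OF) the sum of all terms off the diagonal. -/
def T_OF : Prop :=
  ∀ r ω₁ ω₂ D : ℝ, 1 < r → 0 < ω₁ → ω₁ < ω₂ → 2 * ω₂ < 1 → (r + 1) * ω₂ < 2 → 0 < D → D < 2 →
    ∃ c T₀ : ℝ, 0 < c ∧ ∀ T : ℝ, T₀ ≤ T → ∀ X : ℕ, T ^ ω₁ ≤ X → (X : ℝ) ≤ T ^ ω₂ →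
      ∀ U : Finset (ℕ × ℕ), (∀ q ∈ U, 1 ≤ q.1 ∧ 1 ≤ q.2 ∧ (q.1 : ℝ) * (q.2 : ℝ) ^ r ≤ T ^ D) →
      ∑ p ∈ (Finset.Ico X (2 * X)).filter Nat.Prime,
        ∑ q ∈ U.filter (fun q => ¬(q.1 = 1 ∧ q.2 = p)),
          ((q.1 : ℝ) * q.2) ^ (-(1 / 2) : ℝ) * gg T (dl r q.1 q.2 p) ≤
        Real.sqrt X * T ^ (1 - c)

/-- (DLR) the lower bound. -/
def T_DLR : Prop :=
  ∀ (ι : Type) [Fintype ι] (f : ι → Fac) (r ω₁ ω₂ D β ε : ℝ), 1 < r →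
    (∀ l, (f l).r = r ∨ (f l).r = 1) → DenR f r → 0 < ω₁ → ω₁ < ω₂ → 2 * ω₂ < 1 →
    (r + 1) * ω₂ < 2 → r * ω₂ < D → D < 3 / 2 → 0 < β → 0 < ε → ∃ T₀ : ℝ, ∀ T : ℝ, T₀ ≤ T →
    ∃ (X : ℕ) (ρ : ℕ → ℂ), T ^ ω₁ ≤ X ∧ (X : ℝ) ≤ T ^ ω₂ ∧
      (∀ p, ‖ρ p‖ ≤ (X : ℝ) ^ (-(1 / 2) : ℝ)) ∧
      T ^ (1 - ε) ≤ ‖∫ u in (5 * T / 4)..(5 * T / 4 + T / 2),
        (om ((u - 5 * T / 4) / (T / 2)) : ℂ) *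
          (∑ j ∈ mains f 1 D T, LX f β (r * Real.log X) (Real.log T) j u) * TQ r X ρ u‖

/-! ### Assembly -/

/-- (COR) the core: many bad heights. -/
def T_COR : Prop :=
  ∀ (ι : Type) [Fintype ι] (f : ι → Fac) (Y : ℂ → ℂ) (d t₀ r ε : ℝ), Phase Y d t₀ → 0 < d →
    d < 5 / 2 → 1 < r → 3 * d < 2 * r + 1 → 6 * d < 3 * r + 4 →
    (∀ l, (f l).r = r ∨ (f l).r = 1) → DenR f r → 0 < ε →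
    ∃ β₁ : ℝ, 0 < β₁ ∧ ∀ β : ℝ, β₁ ≤ β → ∀ C : ℝ, ∃ T₀ : ℝ, ∀ T : ℝ, T₀ ≤ T →
      ∀ G : Set ℝ, MeasurableSet G → G ⊆ Icc (5 * T / 4) (7 * T / 4) →
      (∀ u ∈ G, Clean f Y β C T u) →
      T ^ (min 1 (5 - 2 * d) - ε) ≤ volume.real (Icc (5 * T / 4) (7 * T / 4) \ G)

/-- (FIR) many exceptional points. -/
def T_FIR : Prop :=
  ∀ (F : Fam) (r ε : ℝ), 0 < F.d → F.d < 5 / 2 → 1 < r → 3 * F.d < 2 * r + 1 →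
    6 * F.d < 3 * r + 4 → (∀ i, (F.p i).r = r ∨ (F.p i).r = 1) →
    (∀ j, (F.q j).r = r ∨ (F.q j).r = 1) → DenR F.f r → 0 < ε → ∃ T₀ : ℝ, ∀ T : ℝ, T₀ ≤ T →
    ∃ Z : Finset ℂ, T ^ (min 1 (5 - 2 * F.d) - ε) ≤ Z.card ∧
      ∀ z ∈ Z, T ≤ z.im ∧ z.im ≤ 2 * T ∧ F.Exc z

/-- (DFR) the density condition for pairs. -/
def T_DFR : Prop :=
  ∀ (P Q : LF) (a τ : ℝ) (ha : 0 < a), a ≠ 1 → DenL P → DenR (prF P Q a τ ha).f a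

/-- (FGR) the theorem for two functions with the data of an `LF`. -/
def T_FGR : Prop :=
  ∀ (Λ M : ℂ → ℂ) (n m : ℕ) (a τ ε : ℝ), GoodD Λ n → Pool.Agent.H25.HK.Good M m → 1 < a →
    0 < a * n - m → a * n - m < 5 / 2 → 3 * (a * n - m) < 2 * a + 1 →
    6 * (a * n - m) < 3 * a + 4 → 0 < ε → ∃ T₀ : ℝ, ∀ T : ℝ, T₀ ≤ T →
    ∃ Z : Finset ℂ, T ^ (min 1 (5 - 2 * (a * n - m)) - ε) ≤ Z.card ∧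
      ∀ z ∈ Z, T ≤ z.im ∧ z.im ≤ 2 * T ∧
        meromorphicOrderAt Λ (wl a τ z) < meromorphicOrderAt M z

/-! ### Families of Dirichlet characters -/

/-- (KAR) a lower bound in logarithmic windows from the Dirichlet series (Karamata). -/
def T_KAR : Prop :=
  ∀ (w : ℕ → ℝ) (κ : ℝ), 0 < κ → (∀ n, 0 ≤ w n) → (∃ C : ℝ, ∀ n, w n ≤ C) →
    (∀ s : ℕ, 1 ≤ s → Tendsto (fun L : ℝ => (∑' p : Nat.Primes,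
      w p * Real.log p * (p : ℝ) ^ (-(1 + s / L) : ℝ)) / L) atTop (𝓝 (κ / s))) →
    ∀ x₁ x₂ : ℝ, 0 < x₁ → x₁ < x₂ → ∃ c T₀ : ℝ, 0 < c ∧ ∀ T : ℝ, T₀ ≤ T →
      c * Real.log T ≤ ∑ p ∈ (Finset.Ioc ⌊T ^ x₁⌋₊ ⌊T ^ x₂⌋₊).filter Nat.Prime,
        w p * Real.log p / p

open Classical in
/-- (LDC) the sum over primes for two characters and a shift. -/
def T_LDC : Prop :=
  ∀ (ψ χ : PrimChar) (t : ℝ) (s : ℕ), 1 ≤ s →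
    Tendsto (fun L : ℝ => (∑' p : Nat.Primes, chz ψ p * (starRingEnd ℂ) (chz χ p) *
      (p : ℂ) ^ (-(t * I) : ℂ) * Real.log p * ((p : ℝ) ^ (-(1 + s / L) : ℝ) : ℝ)) / L) atTop
      (𝓝 (if ψ = χ ∧ t = 0 then 1 / s else 0))

open Classical in
/-- (DDN) density for combinations of Dirichlet characters with shifts. -/
def T_DDN : Prop :=
  ∀ (k : ℕ) (χ : Fin k → PrimChar) (t : Fin k → ℝ) (m : Fin k → ℤ),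
    (∀ i, ∑ j, (if χ i = χ j ∧ t i = t j then m j else 0) ≠ 0) → 1 ≤ k →
    ∀ x₁ x₂ ε : ℝ, 0 < x₁ → x₁ < x₂ → 0 < ε → ∃ T₀ : ℝ, ∀ T : ℝ, T₀ ≤ T → ∃ X : ℕ,
    T ^ x₁ ≤ X ∧ (X : ℝ) ≤ T ^ x₂ ∧
      T ^ (-ε) ≤ ∑ p ∈ (Finset.Ico X (2 * X)).filter Nat.Prime,
        ‖∑ i, (m i : ℂ) * chz (χ i) p * (p : ℂ) ^ (-(t i * I) : ℂ)‖ ^ 2 / p

/-- (DIR) the theorem for families of Dirichlet `L`-functions with two dilations. -/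
def T_DIR : Prop :=
  ∀ (n m : ℕ) (ψ : Fin n → PrimChar) (α τ : Fin n → ℝ) (χ : Fin m → PrimChar)
    (β σ : Fin m → ℝ) (r d ε : ℝ), 1 < r → (∀ i, α i = 1 ∨ α i = r) →
    (∀ j, β j = 1 ∨ β j = r) → ((∃ i, α i = r) ∨ ∃ j, β j = r) →
    (∀ i j, ¬(ψ i = χ j ∧ α i = β j ∧ τ i = σ j)) → d = ∑ i, α i - ∑ j, β j → 0 < d →
    d < 5 / 2 → 3 * d < 2 * r + 1 → 6 * d < 3 * r + 4 → 0 < ε → ∃ T₀ : ℝ, ∀ T : ℝ, T₀ ≤ T →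
    ∃ Z : Finset ℂ, T ^ (min 1 (5 - 2 * d) - ε) ≤ Z.card ∧
      ∀ z ∈ Z, T ≤ z.im ∧ z.im ≤ 2 * T ∧
        ∑ i, analyticOrderAt (ψ i).L (wl (α i) (τ i) z) <
          ∑ j, analyticOrderAt (χ j).L (wl (β j) (σ j) z)

end Pool.Agent.H29.EX
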