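import Pool.Agent.H25.DP.Targets3

/-!
# Two dilations, test polynomials over primes of the larger dilation: definitions
-/

set_option autoImplicit false

open Complex MeasureTheory Set

namespace Pool.Agent.H29.EX

open Pool.Agent.H25.DL Pool.Agent.H25.DP Pool.Agent.H23.GLH

/-- the test polynomial of dilation `a` -/
noncomputable def TQ (a : ℝ) (X : ℕ) (ρ : ℕ → ℂ) (u : ℝ) : ℂ :=
  ∑ p ∈ Finset.Ico X (2 * X), ρ p * en p (a * u)

variable {ι : Type} [Fintype ι]

/-- the smoothed average of a product of blocks times `Y` times the test polynomial -/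
noncomputable def AQ (f : ι → Fac) (Y : ℂ → ℂ) (j : ι → ℕ) (a : ℝ) (X : ℕ) (ρ : ℕ → ℂ)
    (H W y : ℝ) : ℂ :=
  ∫ u in H..(H + W), (om ((u - H) / W) : ℂ) *
    (Pj f j (1 / 2 + (u + y : ℝ) * I) * Y (1 / 2 + (u + y : ℝ) * I)) * TQ a X ρ u

/-- the coefficient at a prime of the factors of dilation `r` -/
noncomputable def bq (f : ι → Fac) (r : ℝ) (p : ℕ) : ℂ :=
  ∑ l, if (f l).r = r then (f l).c p * (p : ℂ) ^ (-((f l).τ * I) : ℂ) else 0

/-- the coefficients at primes of the factors of dilation `r` are not too small on some dyadic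
block in every window -/
def DenR (f : ι → Fac) (r : ℝ) : Prop :=
  ∀ x₁ x₂ ε : ℝ, 0 < x₁ → x₁ < x₂ → 0 < ε → ∃ T₀ : ℝ, ∀ T : ℝ, T₀ ≤ T → ∃ X : ℕ,
    T ^ x₁ ≤ X ∧ (X : ℝ) ≤ T ^ x₂ ∧
      T ^ (-ε) ≤ ∑ p ∈ (Finset.Ico X (2 * X)).filter Nat.Prime, ‖bq f r p‖ ^ 2 / p

/-- the frequency difference -/
noncomputable def dl (r : ℝ) (n m p : ℕ) : ℝ := Real.log n + r * Real.log m - r * Real.log p

/-- the size of the Fourier transform of the window -/
noncomputable def gg (T Δ : ℝ) : ℝ := T / (1 + (T * Δ) ^ 2)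

open Classical in
/-- triples with a small frequency difference -/
noncomputable def NS (r δ : ℝ) (X N M : ℕ) : Finset (ℕ × ℕ × ℕ) :=
  ((Finset.Ico X (2 * X)).filter Nat.Prime ×ˢ Finset.Ico N (2 * N) ×ˢ Finset.Ico M (2 * M)).filter
    fun q => 2 ≤ q.2.1 ∧ |dl r q.2.1 q.2.2 q.1| ≤ δ

end Pool.Agent.H29.EX
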